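import Mathlib
import Pool.Agent.H71.LPS4

namespace Pool.Agent.Results.MP_e45129_gt.AlmostMin

open Filter Topology
open scoped Pointwise

/-- `(1/n)U` -/
def frac {G : Type} [AddCommGroup G] (U : Set G) (n : ℕ) : Set G :=
  {x | ∀ k : ℕ, 1 ≤ k → k ≤ n → k • x ∈ U}

/-- no strictly coarser Hausdorff group topology (`τ ≤ σ` says that `σ` is coarser than `τ`) -/
def IsMinimal (G : Type) [AddCommGroup G] [τ : TopologicalSpace G] : Prop :=
  ∀ σ : TopologicalSpace G, @IsTopologicalAddGroup G σ _ → @T2Space G σ → τ ≤ σ → σ = τ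

/-- local minimality -/
def LocallyMinimal (G : Type) [AddCommGroup G] [τ : TopologicalSpace G] : Prop :=
  ∃ V ∈ @nhds G τ 0, ∀ σ : TopologicalSpace G, @IsTopologicalAddGroup G σ _ → @T2Space G σ →
    τ ≤ σ → V ∈ @nhds G σ 0 → σ = τ

/-- uniformly free from small subgroups -/
def UFSS (G : Type) [AddCommGroup G] [TopologicalSpace G] : Prop :=
  ∃ U ∈ 𝓝 (0 : G), -U = U ∧ (𝓝 (0 : G)).HasBasis (fun n => 1 ≤ n) (frac U)

/-- GTG subsets -/
def IsGTG {G : Type} [AddCommGroup G] (U : Set G) : Prop :=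
  0 ∈ U ∧ -U = U ∧ ∃ σ : TopologicalSpace G, @IsTopologicalAddGroup G σ _ ∧
    (@nhds G σ 0).HasBasis (fun n => 1 ≤ n) (frac U)

/-- zero has a neighbourhood basis of GTG subsets -/
def LocallyGTG (G : Type) [AddCommGroup G] [TopologicalSpace G] : Prop :=
  ∀ W ∈ 𝓝 (0 : G), ∃ U ∈ 𝓝 (0 : G), U ⊆ W ∧ IsGTG U

/-- almost minimal groups -/
def AlmostMinimal (G : Type) [AddCommGroup G] [TopologicalSpace G] : Prop :=
  ∃ N : AddSubgroup G, IsClosed (N : Set G) ∧ IsMinimal N ∧ UFSS (G ⧸ N)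

lemma frac_mem {G : Type} [AddCommGroup G] [TopologicalSpace G] [IsTopologicalAddGroup G]
    {U : Set G} (hU : U ∈ 𝓝 (0 : G)) (n : ℕ) : frac U n ∈ 𝓝 (0 : G) :=
  mem_of_superset ((biInter_finset_mem (Finset.range (n + 1))).2 fun k _ =>
    (continuous_nsmul k).tendsto' 0 0 (nsmul_zero k) hU) fun _ hx k _ hk =>
      Set.mem_iInter₂.1 hx k (Finset.mem_range.2 (Nat.lt_succ_of_le hk))

theorem result : ∀ (G : Type) [AddCommGroup G] [UniformSpace G] [IsUniformAddGroup G] [T2Space G]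
    [CompleteSpace G], LocallyGTG G → LocallyMinimal G → AlmostMinimal G := by
  rintro G _ _ _ _ _ hG ⟨U, hU, h⟩
  obtain ⟨U', h1, h2⟩ := H71.LPS.main_add hU h (K := ⊥) (by simp)
  obtain ⟨W, w1, w2, w3, w4, hσ⟩ := hG U' h1
  have : ∀ a : {a : ℕ // 1 ≤ a}, ∃ b : {a : ℕ // 1 ≤ a}, ∀ x ∈ frac W b, ∀ y ∈ frac W b,
      x + y ∈ frac W a := hσ.elim fun σ hσ a => by
    have := hσ.1
    obtain ⟨S, s1, s2⟩ := exists_nhds_zero_half (hσ.2.mem_of_mem a.2)
    obtain ⟨b, b1, b2⟩ := hσ.2.mem_iff.1 s1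
    exact ⟨⟨b, b1⟩, fun x hx y hy => s2 x (b2 hx) y (b2 hy)⟩
  choose f hf using this
  let m : ℕ → {a : ℕ // 1 ≤ a} := fun n => Nat.rec ⟨1, le_rfl⟩ (fun _ a => f a) n
  let V : ℕ → Set G := fun n => frac W (m n).1
  have a : ∀ n, V n ∈ 𝓝 (0 : G) := fun n => frac_mem w1 _
  have b : ∀ n, ∀ x ∈ V n, -x ∈ V n := fun n x hx k k1 k2 => by
    rw [smul_neg, ← w4]; exact Set.neg_mem_neg.2 (hx k k1 k2)
  have c : ∀ n, ∀ x ∈ V (n + 1), ∀ y ∈ V (n + 1), x + y ∈ V n := fun n => hf (m n)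
  have d : V 0 ⊆ W := fun x hx => by simpa using hx 1 le_rfl le_rfl
  obtain ⟨C, cC, hC, hV⟩ := h2 V (fun n => mem_of_mem_nhds (a n)) b c fun x hx =>
    ⟨0, zero_mem _, x, w2 (d hx), zero_add x⟩
  have CV : (C : Set G) ⊆ V 1 := fun x hx => by
    obtain ⟨y, h1, h2⟩ := mem_closure_iff_nhds.1 (hV 2 hx) _
      (Continuous.tendsto' (f := fun y => x - y) (by fun_prop) x 0 (sub_self x) (a 2))
    simpa using c 1 _ h1 _ h2
  have hb := H71.LPS.quot_basis a hC
  have : CompactSpace C := isCompact_iff_compactSpace.1 cC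
  refine ⟨C, cC.isClosed, fun σ _ s2 le => ?_, _, hb.mem_of_mem (i := 1) trivial, ?_,
    hb.to_hasBasis' (fun n _ => ⟨(m n).1, (m n).2, fun y hy => ?_⟩)
      fun n _ => frac_mem (hb.mem_of_mem (i := 1) trivial) n⟩
  · have := (@Continuous.isClosedEmbedding C C instTopologicalSpaceSubtype σ this s2 id
      (continuous_id_of_le le) Function.injective_id)
    have := @IsInducing.eq_induced _ _ instTopologicalSpaceSubtype σ _
      (@IsEmbedding.isInducing _ _ _ instTopologicalSpaceSubtype σ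
        (@IsClosedEmbedding.isEmbedding _ _ _ instTopologicalSpaceSubtype σ this))
    rw [this, induced_id]
  · ext y
    obtain ⟨x, rfl⟩ := QuotientAddGroup.mk_surjective y
    constructor
    · rintro ⟨v, hv, e⟩
      exact ⟨-v, b 1 v hv, by rw [QuotientAddGroup.mk_neg, e, neg_neg]⟩
    · rintro ⟨v, hv, e⟩
      exact ⟨-v, b 1 v hv, by rw [QuotientAddGroup.mk_neg, e]⟩
  · obtain ⟨x, rfl⟩ := QuotientAddGroup.mk_surjective y
    refine ⟨x, fun k k1 k2 => ?_, rfl⟩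
    obtain ⟨v, hv, e⟩ := hy k k1 k2
    rw [← QuotientAddGroup.mk_nsmul] at e
    simpa using d (c 0 v hv _ (CV (QuotientAddGroup.eq.1 e)))

end Pool.Agent.Results.MP_e45129_gt.AlmostMin
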